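import Pool.Agent.Helper79_WRA.StmtB
import Pool.Agent.Helper13_WRA.Form

/-!
WRA, module AFORM: the values depend only on the label of the character of the top group.
-/

open scoped BigOperators

noncomputable section

namespace Pool.Agent.Helper79_WRA.H40

open Pool.Agent.Helper51_AWC Pool.Agent.Helper79_WRA Pool.Agent.Helper79_WRA.H13

theorem isExt_ext (hext : ExtStmt) {G Δ K : Type} [Group G] [Finite G] [Fintype Δ] [Group K]
    [Finite K] [MulAction K Δ] {v : Finset (Δ → Subgroup G)} {α : Δ → G → ℂ}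
    (hα : IsChars v α) : IsExt K v α (ext K v α) := by
  have h := hext G Δ K v α hα
  unfold ext
  rw [dif_pos h]
  exact h.choose_spec

theorem Sh_integral {G Δ K : Type} [Group G] [Group K] [MulAction K Δ] [Finite G] [Fintype Δ]
    {v : Finset (Δ → Subgroup G)} {α : Δ → G → ℂ} {X : Wreath G Δ K → ℂ}
    (hα : IsChars v α) (hX : IsExt K v α X) {h : K} (hh : h ∈ topSt K v α)
    {Φ : Wreath G Δ K → ℂ} (hΦ : ∀ x y, Φ (y * x * y⁻¹) = Φ x) (hI : ∀ x, IsIntegral ℤ (Φ x)) :
    IsIntegral ℤ (Sh Φ X h / ∏ j, α j 1) := by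
  classical
  have := Fintype.ofFinite (ConjClasses G)
  obtain ⟨B, hB⟩ := exists_base (Δ := Δ) h
  rw [Sh_eq hα hX hh hB hΦ]
  refine IsIntegral.mul (IsIntegral.prod _ fun j _ => ?_) (IsIntegral.sum _ fun C _ =>
    (hI _).mul (IsIntegral.prod _ fun i _ => omB_integral hα B i _))
  split_ifs
  · exact isIntegral_one
  · exact card_div_integral (hα j)

/-- class sums of a character extended by zero are values of `ulab` -/
theorem class_ulab {K : Type} [Group K] [Finite K] {U : Subgroup K} [Fintype U]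
    [DecidableEq (ConjClasses U)] (lam : K → ℂ) (h : U) :
    (∑ x ∈ Finset.univ.filter (fun x : U => ConjClasses.mk x = ConjClasses.mk h),
      lam x) / lam 1 = ulab U lam h := by
  classical
  have := Fintype.ofFinite K
  unfold ulab
  congr 1
  rw [finsum_eq_sum_of_fintype]
  have h1 : ∀ x : K, (∑ᶠ (_ : ∃ u ∈ U, x = u * (h : K) * u⁻¹), lam x) =
      if ∃ u ∈ U, x = u * (h : K) * u⁻¹ then lam x else 0 := fun x => finsum_eq_if
  simp_rw [h1]
  rw [← Finset.sum_filter]
  refine Finset.sum_bij (fun (x : U) _ => (x : K)) ?_ ?_ ?_ ?_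
  · intro x hx
    have h2 := (Finset.mem_filter.1 hx).2
    obtain ⟨c, hc⟩ := isConj_iff.1 (ConjClasses.mk_eq_mk_iff_isConj.1 h2.symm)
    refine Finset.mem_filter.2 ⟨Finset.mem_univ _, c, c.2, ?_⟩
    rw [← hc]
    rfl
  · intro x _ y _ hxy
    exact Subtype.ext hxy
  · intro x hx
    obtain ⟨u, hu, h2⟩ := (Finset.mem_filter.1 hx).2
    refine ⟨⟨x, ?_⟩, ?_, rfl⟩
    · rw [h2]
      exact U.mul_mem (U.mul_mem hu h.2) (U.inv_mem hu)
    · refine Finset.mem_filter.2 ⟨Finset.mem_univ _, ?_⟩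
      refine (ConjClasses.mk_eq_mk_iff_isConj.2 (isConj_iff.2 ⟨⟨u, hu⟩, ?_⟩)).symm
      apply Subtype.ext
      exact h2.symm
  · intro x _
    rfl

theorem sum_subtype_of_zero {K : Type} [Fintype K] (U : Set K) [Fintype U] (F : K → ℂ)
    (hF : ∀ h, h ∉ U → F h = 0) : ∑ h : K, F h = ∑ h : U, F h := by
  classical
  have h2 : ∀ h : K, F h = if h ∈ U then F h else 0 := by
    intro h
    split_ifs with hh
    · rfl
    · exact hF h hh
  have h3 : ∑ h : K, F h = ∑ h : K, if h ∈ U then F h else 0 :=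
    Finset.sum_congr rfl fun h _ => h2 h
  rw [h3, ← Finset.sum_filter]
  symm
  refine Finset.sum_bij (fun (x : U) _ => (x : K)) ?_ ?_ ?_ ?_
  · intro x _; simp
  · intro x _ y _ hxy; exact Subtype.ext hxy
  · intro x hx
    exact ⟨⟨x, (Finset.mem_filter.1 hx).2⟩, Finset.mem_univ _, rfl⟩
  · intro x _; rfl

/-- the value in terms of the labels of `lam` -/
theorem val_eta_ulab {G Δ K : Type} [Group G] [Finite G] [Fintype Δ] [Group K] [Finite K]
    [MulAction K Δ] {v : Finset (Δ → Subgroup G)} {α : Δ → G → ℂ}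
    (hX : IsExt K v α (ext K v α)) {Φ : Wreath G Δ K → ℂ} (hΦ : ∀ x y, Φ (y * x * y⁻¹) = Φ x)
    {lam : K → ℂ} (hlam : lam ∈ IrrS (topSt K v α)) [Fintype (ConjClasses (topSt K v α))] :
    val Φ (eta v α lam) = ∑ C : ConjClasses (topSt K v α),
      (Sh Φ (ext K v α) (Quotient.out C : topSt K v α) / ∏ j, α j 1) *
        ulab (topSt K v α) lam (Quotient.out C : topSt K v α) := by
  classical
  have := Fintype.ofFinite K
  have := Fintype.ofFinite (topSt K v α)
  rw [val_eta hX]
  rw [sum_subtype_of_zero (topSt K v α : Set K)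
    (fun h => lam h * (Sh Φ (ext K v α) h / ∏ j, α j 1))
    (fun h hh => by rw [hlam.1 h hh, zero_mul])]
  have h1 : ∑ h : (topSt K v α : Set K), lam h * (Sh Φ (ext K v α) h / ∏ j, α j 1) =
      ∑ h : topSt K v α, (fun h : topSt K v α => Sh Φ (ext K v α) h / ∏ j, α j 1) h *
        (fun h : topSt K v α => lam h) h :=
    Finset.sum_congr rfl fun h _ => mul_comm _ _
  rw [h1, sum_class1 (fun h : topSt K v α => Sh Φ (ext K v α) h / ∏ j, α j 1)
    (fun h : topSt K v α => lam h) (fun x y => by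
      show Sh Φ (ext K v α) ((y : K) * x * (y : K)⁻¹) / _ = _
      rw [Sh_conj hX.mem y.2 hΦ]), Finset.sum_div]
  refine Finset.sum_congr rfl fun C _ => ?_
  rw [mul_div_assoc]
  congr 1
  have h2 : ConjClasses.mk (Quotient.out C) = C := Quotient.out_eq C
  rw [← class_ulab lam (Quotient.out C), h2]

theorem aform (hext : ExtStmt) : AformStmt := by
  classical
  intro G Δ K _ _ _ _ _ _ M v α hα lam hlam lam' hlam' hlab Φ hΦ hI
  have hX := isExt_ext hext (K := K) hα
  have := Fintype.ofFinite K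
  have := Fintype.ofFinite (topSt K v α)
  have := Fintype.ofFinite (ConjClasses (topSt K v α))
  rw [val_eta_ulab hX hΦ hlam, val_eta_ulab hX hΦ hlam']
  apply Cong.sum
  intro C _
  exact (hlab _ (Quotient.out C : topSt K v α).2).mul_left
    (Sh_integral hα hX (Quotient.out C : topSt K v α).2 hΦ hI)

end Pool.Agent.Helper79_WRA.H40
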