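import Pool.Agent.Helper79_WRA.StmtB
import Pool.Agent.Helper13_WRA.Count
import Pool.Agent.Helper40_WRA.Aform

/-!
WRA, module CLS: classification of the irreducible characters of the wreath product.
-/

open scoped BigOperators

noncomputable section

namespace Pool.Agent.Helper79_WRA.H40

open Pool.Agent.Helper51_AWC Pool.Agent.Helper79_WRA Pool.Agent.Helper79_WRA.H13

variable {G Ω L : Type} [Group G] [Group L] [MulAction L Ω]

theorem colStab_triv (j : Ω) : colStab (triv G Ω) j = ⊤ := by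
  rw [eq_top_iff]
  intro g _
  rw [mem_colStab]
  intro R hR
  have h : R = fun _ => ⊥ := Finset.mem_singleton.1 hR
  rw [h]
  exact Subgroup.map_bot _

theorem isChars_triv {β : Ω → G → ℂ} : IsChars (triv G Ω) β ↔ ∀ i, β i ∈ Irr G := by
  unfold IsChars
  simp only [colStab_triv, mem_IrrS_top]

theorem tw_eq_tr {β : Ω → G → ℂ} (hβ : ∀ i, β i ∈ Irr G) (t : Wreath G Ω L) :
    tw β t = tr t.s⁻¹ β := by
  funext j y
  show β (t.s • j) (t.f (t.s • j) * y * (t.f (t.s • j))⁻¹) = β (t.s⁻¹⁻¹ • j) y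
  rw [irr_conj (hβ _), inv_inv]

theorem tr_one (β : Ω → G → ℂ) : tr (1 : L) β = β := by
  funext i
  show β ((1 : L)⁻¹ • i) = β i
  rw [inv_one, one_smul]

theorem tr_mul (l m : L) (β : Ω → G → ℂ) : tr (l * m) β = tr l (tr m β) := by
  funext i
  show β ((l * m)⁻¹ • i) = β (m⁻¹ • (l⁻¹ • i))
  rw [mul_inv_rev, mul_smul]

theorem mem_stX_triv {β : Ω → G → ℂ} (hβ : ∀ i, β i ∈ Irr G) {t : Wreath G Ω L} :
    t ∈ stX L (triv G Ω) β ↔ tr t.s β = β := by
  rw [mem_stX]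
  constructor
  · rintro ⟨-, h⟩
    funext j y
    have := h j y
    rw [irr_conj (hβ _)] at this
    exact this.symm
  · intro h
    refine ⟨?_, ?_⟩
    · intro R hR j
      have h : R = fun _ => ⊥ := Finset.mem_singleton.1 hR
      rw [h]
      exact Subgroup.map_bot _
    · intro j y
      rw [irr_conj (hβ _)]
      exact (congrFun (congrFun h j) y).symm

theorem mem_LL {β : Ω → G → ℂ} (hβ : ∀ i, β i ∈ Irr G) {h : L} :
    h ∈ LL L β ↔ tr h β = β := by
  constructor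
  · rintro ⟨t, ht, rfl⟩
    exact (mem_stX_triv hβ).1 ht
  · intro hh
    exact ⟨Wreath.top h, (mem_stX_triv hβ).2 hh, rfl⟩

theorem card_stX_triv [Finite G] [Fintype Ω] {β : Ω → G → ℂ} (hβ : ∀ i, β i ∈ Irr G) :
    Nat.card (stX L (triv G Ω) β) = Nat.card (Ω → G) * Nat.card (LL L β) := by
  rw [card_stX (isChars_triv.2 hβ)]
  congr 1
  have h : ∀ j : Ω, Nat.card (colStab (triv G Ω) j) = Nat.card G := by
    intro j
    rw [colStab_triv]
    exact Nat.card_congr Subgroup.topEquiv.toEquiv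
  simp only [h]
  rw [Nat.card_pi]

theorem card_wreath [Finite G] [Finite Ω] [Finite L] :
    Nat.card (Wreath G Ω L) = Nat.card (Ω → G) * Nat.card L := by
  rw [Nat.card_congr (Wreath.equivProd G Ω L), Nat.card_prod]

/-- the kernel of the projection -/
def kerE (G Ω L : Type) [Group G] [Group L] [MulAction L Ω] :
    (Wreath.proj : Wreath G Ω L →* L).ker ≃* (Ω → G) where
  toFun t := t.1.f
  invFun y := ⟨Wreath.base y, rfl⟩
  left_inv t := by
    apply Subtype.ext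
    exact (eq_base_of_s t.2).symm
  right_inv _ := rfl
  map_mul' t u := by
    funext j
    have h2 : (t.1).s = 1 := t.2
    show ((t.1) * (u.1)).f j = (t.1).f j * (u.1).f j
    rw [Wreath.mul_f, h2, inv_one, one_smul]

open Classical in
/-- the character of the kernel attached to `β` -/
def nuW [Fintype Ω] (β : Ω → G → ℂ) (t : Wreath G Ω L) : ℂ :=
  if t.s = 1 then ∏ j, β j (t.f j) else 0

theorem nuW_base [Fintype Ω] (β : Ω → G → ℂ) (y : Ω → G) :
    nuW (L := L) β (Wreath.base y) = ∏ j, β j (y j) := by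
  unfold nuW
  rw [if_pos (Wreath.base_s y)]
  rfl

section fin

variable [Finite G] [Fintype Ω]

theorem nuW_mem {β : Ω → G → ℂ} (hβ : ∀ i, β i ∈ Irr G) :
    nuW β ∈ IrrS (Wreath.proj : Wreath G Ω L →* L).ker := by
  classical
  have := Fintype.ofFinite G
  refine ⟨fun t ht => if_neg ht, ?_⟩
  have h1 : piChar (H := fun _ : Ω => G) β ∈ Irr (Ω → G) := piChar_mem hβ
  have h2 := irr_comp_equiv (kerE G Ω L) h1
  have h3 : (fun h : (Wreath.proj : Wreath G Ω L →* L).ker => nuW β (h : Wreath G Ω L)) =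
      fun g => piChar (H := fun _ : Ω => G) β (kerE G Ω L g) := by
    funext t
    exact if_pos t.2
  rw [h3]
  exact h2

theorem nuW_inj {α β : Ω → G → ℂ} (hα : ∀ i, α i ∈ Irr G) (hβ : ∀ i, β i ∈ Irr G)
    (h : nuW (L := L) α = nuW β) : α = β := by
  classical
  have := Fintype.ofFinite G
  refine piChar_inj (H := fun _ : Ω => G) hα hβ ?_
  funext y
  have := congrFun h (Wreath.base y)
  rw [nuW_base, nuW_base] at this
  exact this

theorem nuW_surj (η : Wreath G Ω L → ℂ)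
    (hη : η ∈ IrrS (Wreath.proj : Wreath G Ω L →* L).ker) :
    ∃ α : Ω → G → ℂ, (∀ i, α i ∈ Irr G) ∧ nuW α = η := by
  classical
  have := Fintype.ofFinite G
  have h1 := irr_comp_equiv (kerE G Ω L).symm hη.2
  obtain ⟨α, hα, hα2⟩ := exists_piChar (H := fun _ : Ω => G) h1
  refine ⟨α, hα, ?_⟩
  refine IrrS_ext (nuW_mem hα) hη fun t => ?_
  have h2 := congrFun hα2 (kerE G Ω L t)
  simp only [MulEquiv.symm_apply_apply] at h2
  rw [h2]
  exact if_pos t.2

omit [Finite G] in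
theorem nuW_tw (β : Ω → G → ℂ) (t y : Wreath G Ω L) :
    nuW β (t * y * t⁻¹) = nuW (tw β t) y := by
  unfold nuW
  have hs : (t * y * t⁻¹).s = t.s * y.s * t.s⁻¹ := Wreath.conj_s y t
  by_cases h : y.s = 1
  · rw [if_pos h, if_pos (by rw [hs, h, mul_one, mul_inv_cancel])]
    have h1 : ∀ j, (t * y * t⁻¹).f j = t.f j * y.f (t.s⁻¹ • j) * (t.f j)⁻¹ := by
      intro j
      have h2 := Wreath.conj_f y t j
      rw [h, inv_one, mul_one, mul_inv_cancel, one_smul] at h2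
      exact h2
    simp only [h1]
    unfold tw
    rw [← Equiv.prod_comp (MulAction.toPerm t.s)
      (fun j => β j (t.f j * y.f (t.s⁻¹ • j) * (t.f j)⁻¹))]
    refine Finset.prod_congr rfl fun j _ => ?_
    rw [MulAction.toPerm_apply, inv_smul_smul]
  · rw [if_neg h, if_neg]
    rw [hs]
    intro h2
    apply h
    have : y.s = t.s⁻¹ * (t.s * y.s * t.s⁻¹) * t.s := by group
    rw [this, h2]
    group

theorem mem_T_triv {β : Ω → G → ℂ} (hβ : ∀ i, β i ∈ Irr G) (t : Wreath G Ω L) :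
    t ∈ stX L (triv G Ω) β ↔ ∀ y, nuW β (t * y * t⁻¹) = nuW β y := by
  have hinv : tr t.s⁻¹ β = β ↔ tr t.s β = β := by
    constructor
    · intro h
      conv_lhs => rw [← h]
      rw [← tr_mul, mul_inv_cancel, tr_one]
    · intro h
      conv_lhs => rw [← h]
      rw [← tr_mul, inv_mul_cancel, tr_one]
  rw [mem_stX_triv hβ, ← hinv]
  constructor
  · intro h y
    rw [nuW_tw, tw_eq_tr hβ, h]
  · intro h
    have h1 : nuW (L := L) (tr t.s⁻¹ β) = nuW β := by
      funext y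
      rw [← tw_eq_tr hβ, ← nuW_tw, h]
    exact nuW_inj (fun i => hβ _) hβ h1

end fin

theorem et_base [Finite G] [Fintype Ω] {β : Ω → G → ℂ}
    (hX : IsExt L (triv G Ω) β (ext L (triv G Ω) β)) (lam : L → ℂ) {t : Wreath G Ω L}
    (ht : t.s = 1) : et β lam t = nuW β t * lam 1 := by
  show ext L (triv G Ω) β t * lam t.s = _
  rw [ht, eq_base_of_s ht, hX.base, nuW_base]

/-- the inner products of the restriction of an induced character -/
theorem inner_ind [Finite G] [Fintype Ω] [Finite L] {β γ : Ω → G → ℂ}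
    (hβ : ∀ i, β i ∈ Irr G) (hγ : ∀ i, γ i ∈ Irr G)
    (hX : IsExt L (triv G Ω) β (ext L (triv G Ω) β)) (lam : L → ℂ) :
    (∑ᶠ f : Ω → G, ind (stX L (triv G Ω) β) (et β lam) (Wreath.base f) *
      ∏ i, γ i (f i)⁻¹) =
      lam 1 / (Nat.card (stX L (triv G Ω) β) : ℂ) * (Nat.card (Ω → G) : ℂ) *
        (Nat.card {x : Wreath G Ω L // tr x.s⁻¹ β = γ} : ℂ) := by
  classical
  have := Fintype.ofFinite G
  have := Fintype.ofFinite L
  have := Fintype.ofFinite (Wreath G Ω L)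
  rw [finsum_eq_sum_of_fintype]
  have h1 : ∀ f : Ω → G, ind (stX L (triv G Ω) β) (et β lam) (Wreath.base f) =
      (∑ x : Wreath G Ω L, piChar (H := fun _ : Ω => G) (tr x.s⁻¹ β) f * lam 1) /
        (Nat.card (stX L (triv G Ω) β) : ℂ) := by
    intro f
    unfold ind
    congr 1
    rw [finsum_eq_sum_of_fintype]
    refine Finset.sum_congr rfl fun x _ => ?_
    have hs : (x * Wreath.base f * x⁻¹).s = 1 := by
      rw [Wreath.conj_s, Wreath.base_s, mul_one, mul_inv_cancel]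
    rw [et_base hX lam hs, nuW_tw, nuW_base, tw_eq_tr hβ]
    rfl
  simp only [h1]
  have h2 : ∀ f : Ω → G, (∑ x : Wreath G Ω L, piChar (H := fun _ : Ω => G) (tr x.s⁻¹ β) f *
      lam 1) / (Nat.card (stX L (triv G Ω) β) : ℂ) * ∏ i, γ i (f i)⁻¹ =
      lam 1 / (Nat.card (stX L (triv G Ω) β) : ℂ) * ∑ x : Wreath G Ω L,
        piChar (H := fun _ : Ω => G) (tr x.s⁻¹ β) f * piChar (H := fun _ : Ω => G) γ f⁻¹ := by
    intro f
    have h3 : piChar (H := fun _ : Ω => G) γ f⁻¹ = ∏ i, γ i (f i)⁻¹ := rfl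
    rw [← h3, ← Finset.sum_mul, ← Finset.sum_mul]
    ring
  simp only [h2]
  rw [← Finset.mul_sum, Finset.sum_comm]
  have h4 : ∀ x : Wreath G Ω L, (∑ f : Ω → G, piChar (H := fun _ : Ω => G) (tr x.s⁻¹ β) f *
      piChar (H := fun _ : Ω => G) γ f⁻¹) =
      if tr x.s⁻¹ β = γ then (Nat.card (Ω → G) : ℂ) else 0 := by
    intro x
    split_ifs with h
    · rw [h, Nat.card_eq_fintype_card]
      exact piChar_inner_self (H := fun _ : Ω => G) hγ
    · exact piChar_inner_ne (H := fun _ : Ω => G) (fun i => hβ _) hγ h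
  simp only [h4]
  have h5 : Nat.card {x : Wreath G Ω L // tr x.s⁻¹ β = γ} =
      (Finset.univ.filter fun x : Wreath G Ω L => tr x.s⁻¹ β = γ).card := by
    rw [Nat.card_eq_fintype_card, Fintype.card_subtype]
  rw [← Finset.sum_filter, Finset.sum_const, nsmul_eq_mul, h5]
  ring

theorem liesOver_ind [Finite G] [Fintype Ω] [Finite L] {β γ : Ω → G → ℂ}
    (hβ : ∀ i, β i ∈ Irr G) (hγ : ∀ i, γ i ∈ Irr G)
    (hX : IsExt L (triv G Ω) β (ext L (triv G Ω) β)) {lam : L → ℂ} (hlam : lam ∈ IrrS (LL L β)) :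
    LiesOver (ind (stX L (triv G Ω) β) (et β lam)) γ ↔ ∃ l : L, tr l β = γ := by
  unfold LiesOver
  rw [inner_ind hβ hγ hX]
  have h1 : lam 1 ≠ 0 := IrrS_one_ne hlam
  have h2 : (Nat.card (stX L (triv G Ω) β) : ℂ) ≠ 0 := by exact_mod_cast Nat.card_pos.ne'
  have h3 : (Nat.card (Ω → G) : ℂ) ≠ 0 := by exact_mod_cast Nat.card_pos.ne'
  constructor
  · intro h
    by_contra hcon
    push Not at hcon
    apply h
    have : IsEmpty {x : Wreath G Ω L // tr x.s⁻¹ β = γ} := ⟨fun x => hcon _ x.2⟩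
    have h5 : Nat.card {x : Wreath G Ω L // tr x.s⁻¹ β = γ} = 0 := Nat.card_of_isEmpty
    rw [h5, Nat.cast_zero, mul_zero]
  · rintro ⟨l, hl⟩
    have : Nonempty {x : Wreath G Ω L // tr x.s⁻¹ β = γ} :=
      ⟨⟨Wreath.top l⁻¹, by rw [Wreath.top_s, inv_inv]; exact hl⟩⟩
    have h4 : (Nat.card {x : Wreath G Ω L // tr x.s⁻¹ β = γ} : ℂ) ≠ 0 := by
      exact_mod_cast Nat.card_pos.ne'
    exact mul_ne_zero (mul_ne_zero (div_ne_zero h1 h2) h3) h4

theorem ind_one [Finite G] [Fintype Ω] [Finite L] {β : Ω → G → ℂ}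
    (hβ : ∀ i, β i ∈ Irr G) (hX : IsExt L (triv G Ω) β (ext L (triv G Ω) β)) (lam : L → ℂ) :
    ind (stX L (triv G Ω) β) (et β lam) 1 * (Nat.card (LL L β) : ℂ) =
      (Nat.card L : ℂ) * (∏ i, β i 1) * lam 1 := by
  classical
  have := Fintype.ofFinite G
  have := Fintype.ofFinite L
  have := Fintype.ofFinite (Wreath G Ω L)
  have h0 : ind (stX L (triv G Ω) β) (et β lam) 1 =
      (Nat.card (Wreath G Ω L) : ℂ) * ((∏ i, β i 1) * lam 1) /
        (Nat.card (stX L (triv G Ω) β) : ℂ) := by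
    unfold ind
    congr 1
    rw [finsum_eq_sum_of_fintype]
    have h1 : ∀ x : Wreath G Ω L, et β lam (x * 1 * x⁻¹) = (∏ i, β i 1) * lam 1 := by
      intro x
      rw [mul_one, mul_inv_cancel, et_base hX lam Wreath.one_s]
      congr 1
      unfold nuW
      rw [if_pos Wreath.one_s]
      rfl
    simp only [h1]
    rw [Finset.sum_const, Finset.card_univ, nsmul_eq_mul, Nat.card_eq_fintype_card]
  rw [h0, card_stX_triv hβ, card_wreath]
  have h2 : (Nat.card (LL L β) : ℂ) ≠ 0 := by exact_mod_cast Nat.card_pos.ne'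
  have h3 : (Nat.card (Ω → G) : ℂ) ≠ 0 := by exact_mod_cast Nat.card_pos.ne'
  push_cast
  field_simp

/-- Clifford's counting formula for the wreath product -/
theorem cliff_wreath (hext : ExtStmt) (hcl : CliffStmt) (G Ω L : Type) [Group G] [Finite G]
    [Fintype Ω] [Group L] [Finite L] [MulAction L Ω] (S : Set (Wreath G Ω L → ℂ)) :
    Nat.card (Wreath G Ω L) * {θ | θ ∈ Irr (Wreath G Ω L) ∧ θ ∈ S}.ncard =
      ∑ a : {β : Ω → G → ℂ // β ∈ charsOf (triv G Ω)},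
        Nat.card (stX L (triv G Ω) a.1) * {lam | lam ∈ IrrS (LL L a.1) ∧
          ind (stX L (triv G Ω) a.1) (et a.1 lam) ∈ S}.ncard := by
  have hmem : ∀ a : {β : Ω → G → ℂ // β ∈ charsOf (triv G Ω)}, ∀ i, a.1 i ∈ Irr G :=
    fun a => isChars_triv.1 (mem_charsOf.1 a.2)
  have hE : ∀ a : {β : Ω → G → ℂ // β ∈ charsOf (triv G Ω)},
      IsExt L (triv G Ω) a.1 (ext L (triv G Ω) a.1) :=
    fun a => isExt_ext hext (mem_charsOf.1 a.2)
  exact hcl (Wreath G Ω L) L {β : Ω → G → ℂ // β ∈ charsOf (triv G Ω)}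
    (Wreath.proj : Wreath G Ω L →* L) (fun a => nuW a.1)
    (fun a => ext L (triv G Ω) a.1) (fun a => stX L (triv G Ω) a.1)
    (fun a => nuW_mem (hmem a))
    (fun a b h => Subtype.ext (nuW_inj (hmem a) (hmem b) h))
    (fun η hη => by
      obtain ⟨α, hα, h⟩ := nuW_surj η hη
      exact ⟨⟨α, mem_charsOf.2 (isChars_triv.2 hα)⟩, h⟩)
    (fun a t => mem_T_triv (hmem a) t)
    (fun a => (hE a).mem)
    (fun a y hy => by
      have h1 : y.s = 1 := hy
      show ext L (triv G Ω) a.1 y = nuW a.1 y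
      rw [eq_base_of_s h1, (hE a).base, nuW_base])
    S

theorem ind_mem (hext : ExtStmt) (hcl : CliffStmt) {G Ω L : Type} [Group G] [Finite G]
    [Fintype Ω] [Group L] [Finite L] [MulAction L Ω] {β : Ω → G → ℂ} (hβ : ∀ i, β i ∈ Irr G)
    {lam : L → ℂ} (hlam : lam ∈ IrrS (LL L β)) :
    ind (stX L (triv G Ω) β) (et β lam) ∈ Irr (Wreath G Ω L) := by
  classical
  have key := cliff_wreath hext hcl G Ω L (Irr (Wreath G Ω L))ᶜ
  have h0 : {θ | θ ∈ Irr (Wreath G Ω L) ∧ θ ∈ (Irr (Wreath G Ω L))ᶜ} =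
      (∅ : Set (Wreath G Ω L → ℂ)) := by
    ext θ
    constructor
    · rintro ⟨h1, h2⟩
      exact h2 h1
    · intro h
      exact h.elim
  rw [h0, Set.ncard_empty, mul_zero] at key
  have h1 := (Finset.sum_eq_zero_iff_of_nonneg (fun a _ => Nat.zero_le _)).1 key.symm
    ⟨β, mem_charsOf.2 (isChars_triv.2 hβ)⟩ (Finset.mem_univ _)
  have h2 := (Nat.mul_eq_zero.1 h1).resolve_left Nat.card_pos.ne'
  have hfin : {lam | lam ∈ IrrS (LL L β) ∧
      ind (stX L (triv G Ω) β) (et β lam) ∈ (Irr (Wreath G Ω L))ᶜ}.Finite :=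
    (IrrS_finite (LL L β)).subset fun _ h => h.1
  have h3 := (Set.ncard_eq_zero hfin).1 h2
  by_contra hcon
  have : lam ∈ {lam | lam ∈ IrrS (LL L β) ∧
      ind (stX L (triv G Ω) β) (et β lam) ∈ (Irr (Wreath G Ω L))ᶜ} := ⟨hlam, hcon⟩
  rw [h3] at this
  exact this.elim

theorem exists_ind (hext : ExtStmt) (hcl : CliffStmt) {G Ω L : Type} [Group G] [Finite G]
    [Fintype Ω] [Group L] [Finite L] [MulAction L Ω] {χ : Wreath G Ω L → ℂ}
    (hχ : χ ∈ Irr (Wreath G Ω L)) :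
    ∃ β : Ω → G → ℂ, (∀ i, β i ∈ Irr G) ∧ ∃ lam ∈ IrrS (LL L β),
      ind (stX L (triv G Ω) β) (et β lam) = χ := by
  classical
  have key := cliff_wreath hext hcl G Ω L {χ}
  have h0 : {θ | θ ∈ Irr (Wreath G Ω L) ∧ θ ∈ ({χ} : Set (Wreath G Ω L → ℂ))} = {χ} := by
    ext θ
    constructor
    · rintro ⟨_, h2⟩
      exact h2
    · intro h
      exact ⟨by rw [Set.mem_singleton_iff.1 h]; exact hχ, h⟩
  rw [h0, Set.ncard_singleton, mul_one] at key
  have h1 : ∑ a : {β : Ω → G → ℂ // β ∈ charsOf (triv G Ω)},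
        Nat.card (stX L (triv G Ω) a.1) * {lam | lam ∈ IrrS (LL L a.1) ∧
          ind (stX L (triv G Ω) a.1) (et a.1 lam) ∈ ({χ} : Set (Wreath G Ω L → ℂ))}.ncard ≠ 0 := by
    rw [← key]
    exact Nat.card_pos.ne'
  obtain ⟨a, -, ha⟩ := Finset.exists_ne_zero_of_sum_ne_zero h1
  refine ⟨a.1, isChars_triv.1 (mem_charsOf.1 a.2), ?_⟩
  have h2 := (mul_ne_zero_iff.1 ha).2
  obtain ⟨lam, h3, h4⟩ := Set.nonempty_of_ncard_ne_zero h2
  exact ⟨lam, h3, h4⟩

theorem card_LL_tr [Finite L] {β : Ω → G → ℂ} (hβ : ∀ i, β i ∈ Irr G) (l : L) :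
    Nat.card (LL L (tr l β)) = Nat.card (LL L β) := by
  have h : LL L (tr l β) = conjS l (LL L β) := by
    ext h
    rw [mem_conjS, mem_LL hβ, mem_LL (β := tr l β) (fun i => hβ _)]
    constructor
    · intro hh
      rw [mul_assoc, tr_mul, tr_mul, hh, ← tr_mul, inv_mul_cancel, tr_one]
    · intro hh
      have : h * l = l * (l⁻¹ * h * l) := by group
      rw [← tr_mul, this, tr_mul, hh]
  rw [h, card_conjS]

theorem cls (hext : ExtStmt) (hcl : CliffStmt) (heqv : EqvStmt) : ClsStmt := by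
  intro G Ω L _ _ _ _ _ _
  refine ⟨?_, ?_, ?_⟩
  · intro β hβ lam hlam
    have hX : IsExt L (triv G Ω) β (ext L (triv G Ω) β) := isExt_ext hext (isChars_triv.2 hβ)
    refine ⟨ind (stX L (triv G Ω) β) (et β lam), ind_mem hext hcl hβ hlam, ?_, ?_, ?_⟩
    · intro Φ hΦ
      exact val_ind _ Φ _ hΦ
    · exact (liesOver_ind hβ hβ hX hlam).2 ⟨1, tr_one β⟩
    · exact ind_one hβ hX lam
  · intro χ hχ γ hγ hover
    obtain ⟨β, hβ, lam, hlam, rfl⟩ := exists_ind hext hcl hχ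
    have hX : IsExt L (triv G Ω) β (ext L (triv G Ω) β) := isExt_ext hext (isChars_triv.2 hβ)
    obtain ⟨l, rfl⟩ := (liesOver_ind hβ hγ hX hlam).1 hover
    obtain ⟨-, -, h3⟩ := heqv G Ω L β hβ
    obtain ⟨h4, h5⟩ := h3 lam hlam l
    refine ⟨_, h4, ?_, ?_⟩
    · intro Φ hΦ
      rw [h5 Φ hΦ]
      exact val_ind _ Φ _ hΦ
    · have h6 := ind_one hβ hX lam
      rw [card_LL_tr hβ, h6]
      have h7 : ∏ i, tr l β i 1 = ∏ i, β i 1 :=
        Equiv.prod_comp (MulAction.toPerm l⁻¹) (fun i => β i 1)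
      have h8 : l⁻¹ * 1 * l = (1 : L) := by group
      simp only [h7, h8]
  · intro χ hχ
    obtain ⟨β, hβ, lam, hlam, rfl⟩ := exists_ind hext hcl hχ
    have hX : IsExt L (triv G Ω) β (ext L (triv G Ω) β) := isExt_ext hext (isChars_triv.2 hβ)
    exact ⟨β, hβ, (liesOver_ind hβ hβ hX hlam).2 ⟨1, tr_one β⟩⟩

end Pool.Agent.Helper79_WRA.H40
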